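import Mathlib

set_option autoImplicit false

/-!
Fewer equations than unknowns: polynomials without constant term over an algebraically
closed field, fewer than the number of variables, have a common zero other than the origin.
-/

namespace Helper41.Eggert

open MvPolynomial

variable {K : Type*} [Field K]

/-- translation automorphism of the polynomial ring -/
noncomputable def transl {N : ℕ} (x : Fin N → K) :
    MvPolynomial (Fin N) K ≃ₐ[K] MvPolynomial (Fin N) K :=
  AlgEquiv.ofAlgHom (aeval (fun i => X i + C (x i))) (aeval (fun i => X i - C (x i)))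
    (by ext i; simp) (by ext i; simp)

lemma aeval_transl {N : ℕ} (x : Fin N → K) (f : MvPolynomial (Fin N) K) :
    aeval (0 : Fin N → K) (transl x f) = aeval x f := by
  have : (aeval (R := K) (0 : Fin N → K)).comp (transl x : _ →ₐ[K] _) = aeval x := by
    ext i
    simp [transl]
  exact DFunLike.congr_fun this f

lemma height_origin [IsAlgClosed K] (N : ℕ) :
    (N : ℕ∞) ≤ (vanishingIdeal K {(0 : Fin N → K)} : Ideal (MvPolynomial (Fin N) K)).height := by
  have h1 : ringKrullDim (MvPolynomial (Fin N) K) ≤
      ((vanishingIdeal K {(0 : Fin N → K)} : Ideal (MvPolynomial (Fin N) K)).height : WithBot ℕ∞) := by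
    rw [ringKrullDim_le_iff_isMaximal_height_le]
    intro m hm
    obtain ⟨x, rfl⟩ := eq_vanishingIdeal_singleton_of_isMaximal K hm
    have h2 : (vanishingIdeal K {x} : Ideal (MvPolynomial (Fin N) K)) =
        (vanishingIdeal K {(0 : Fin N → K)} : Ideal (MvPolynomial (Fin N) K)).comap
          (transl x).toRingEquiv := by
      ext f
      rw [mem_vanishingIdeal_singleton_iff, Ideal.mem_comap, mem_vanishingIdeal_singleton_iff]
      have := aeval_transl x f
      simp only [AlgEquiv.coe_ringEquiv]
      rw [this]
    rw [h2, RingEquiv.height_comap]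
  rw [MvPolynomial.ringKrullDim_of_isNoetherianRing] at h1
  simp only [ringKrullDim_eq_zero_of_field, Nat.card_eq_fintype_card, Fintype.card_fin, zero_add] at h1
  exact_mod_cast h1

theorem exists_ne_zero_common_zero [IsAlgClosed K] {N : ℕ} (s : Finset (MvPolynomial (Fin N) K))
    (hs : s.card < N) (h0 : ∀ f ∈ s, eval (0 : Fin N → K) f = 0) :
    ∃ c : Fin N → K, c ≠ 0 ∧ ∀ f ∈ s, eval c f = 0 := by
  by_contra hcon
  push Not at hcon
  have hz : zeroLocus K (Ideal.span (s : Set (MvPolynomial (Fin N) K))) = {0} := by
    rw [zeroLocus_span]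
    ext c
    simp only [Set.mem_ofPred_eq, Set.mem_singleton_iff]
    constructor
    · intro hc
      by_contra hc0
      obtain ⟨f, hf, hfc⟩ := hcon c hc0
      exact hfc (hc f hf)
    · rintro rfl f hf
      exact h0 f hf
  have hrad := vanishingIdeal_zeroLocus_eq_radical (K := K)
    (Ideal.span (s : Set (MvPolynomial (Fin N) K)))
  rw [hz] at hrad
  have hmin : (vanishingIdeal K {(0 : Fin N → K)} : Ideal (MvPolynomial (Fin N) K)) ∈
      (Ideal.span (s : Set (MvPolynomial (Fin N) K))).minimalPrimes := by
    refine ⟨⟨inferInstance, ?_⟩, ?_⟩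
    · rw [hrad]; exact Ideal.le_radical
    · rintro P ⟨hP, hPs⟩ _
      rw [hrad]
      exact (Ideal.IsPrime.radical_le_iff hP).2 hPs
  have h3 := Ideal.height_le_card_of_mem_minimalPrimes_span_finset hmin
  have h4 := (height_origin (K := K) N).trans h3
  have : N ≤ s.card := by exact_mod_cast h4
  omega

end Helper41.Eggert
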