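import Mathlib

set_option autoImplicit false

/-!
Elements of maximal rank in a linear family of linear maps.
-/

namespace Helper41.Eggert

open Module

variable {F R V W : Type*} [Field F] [AddCommGroup R] [Module F R]
  [AddCommGroup V] [Module F V] [AddCommGroup W] [Module F W]

/-- Independence of a family persists under small perturbation: for some `t ≠ 0`. -/
lemma exists_perturb [Infinite F] [FiniteDimensional F W] {n : ℕ} (a b : Fin n → W)
    (ha : LinearIndependent F a) :
    ∃ t : F, t ≠ 0 ∧ LinearIndependent F (fun i => a i + t • b i) := by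
  classical
  -- functionals dual to a
  obtain ⟨g, hg⟩ : ∃ g : W →ₗ[F] (Fin n → F), ∀ i, g (a i) = Pi.single i 1 := by
    obtain ⟨g, hg⟩ := LinearMap.exists_leftInverse_of_injective
      (Fintype.linearCombination F a) (by
        exact LinearMap.ker_eq_bot.2 (ha.fintypeLinearCombination_injective))
    refine ⟨g, fun i => ?_⟩
    have := LinearMap.congr_fun hg (Pi.single i 1)
    simpa [Fintype.linearCombination_apply_single] using this
  -- polynomial determinant
  let M : Matrix (Fin n) (Fin n) (Polynomial F) :=
    fun i j => Polynomial.C (g (a j) i) + Polynomial.X * Polynomial.C (g (b j) i)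
  have hM : ∀ t : F, M.det.eval t = (Matrix.of (fun i j => g (a j + t • b j) i)).det := by
    intro t
    rw [← Polynomial.coe_evalRingHom, RingHom.map_det]
    congr 1
    ext i j
    rw [RingHom.mapMatrix_apply, Matrix.map_apply]
    simp only [M, Polynomial.coe_evalRingHom, Polynomial.eval_mul,
      Polynomial.eval_C, Polynomial.eval_X, Matrix.of_apply, map_add, map_smul, Pi.add_apply,
      Pi.smul_apply, smul_eq_mul]
  have hM0 : M.det.eval 0 = 1 := by
    rw [hM]
    convert Matrix.det_one (n := Fin n) (R := F) using 2
    ext i j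
    simp [hg, Pi.single_apply, Matrix.one_apply]
  have hne : M.det ≠ 0 := by
    intro h
    rw [h] at hM0
    simp at hM0
  have hne2 : Polynomial.X * M.det ≠ 0 := mul_ne_zero Polynomial.X_ne_zero hne
  obtain ⟨t, ht⟩ : ∃ t : F, (Polynomial.X * M.det).eval t ≠ 0 := by
    by_contra hcon
    push Not at hcon
    exact hne2 (Polynomial.funext (by simpa using hcon))
  rw [Polynomial.eval_mul, Polynomial.eval_X] at ht
  refine ⟨t, left_ne_zero_of_mul ht, ?_⟩
  have hdet := right_ne_zero_of_mul ht
  rw [hM] at hdet
  have hli := Matrix.linearIndependent_cols_of_det_ne_zero hdet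
  refine LinearIndependent.of_comp g ?_
  have hfun : (⇑g ∘ fun i => a i + t • b i) =
      (Matrix.of fun i j => g (a j + t • b j) i).col := by
    ext j i
    simp [Matrix.col]
  rw [hfun]
  exact hli

/-- Key property of an element of maximal rank in a linear family of linear maps. -/
theorem mem_range_of_maxRank [Infinite F] [FiniteDimensional F V] [FiniteDimensional F W]
    (L : R →ₗ[F] (V →ₗ[F] W)) (x : R)
    (hx : ∀ y : R, finrank F (LinearMap.range (L y)) ≤ finrank F (LinearMap.range (L x)))
    (z : R) (k : V) (hk : L x k = 0) : L z k ∈ LinearMap.range (L x) := by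
  by_contra hcon
  obtain ⟨ρ, hρ⟩ : ∃ ρ, finrank F (LinearMap.range (L x)) = ρ := ⟨_, rfl⟩
  let B := Module.finBasisOfFinrankEq F (LinearMap.range (L x)) hρ
  have hB : ∀ i, ∃ v, L x v = (B i : W) := fun i => (B i).2
  choose v hv using hB
  have hli0 : LinearIndependent F (fun i => (B i : W)) :=
    B.linearIndependent.map' (LinearMap.range (L x)).subtype (Submodule.ker_subtype _)
  let a : Fin (ρ + 1) → W := Fin.cons (L z k) (fun i => L x (v i))
  let b : Fin (ρ + 1) → W := Fin.cons 0 (fun i => L z (v i))
  have ha : LinearIndependent F a := by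
    rw [linearIndependent_finCons]
    constructor
    · simpa [hv] using hli0
    · intro hmem
      apply hcon
      have : Set.range (fun i => L x (v i)) ⊆ LinearMap.range (L x) := by
        rintro _ ⟨i, rfl⟩
        exact ⟨_, rfl⟩
      exact (Submodule.span_le.2 this) hmem
  obtain ⟨t, ht0, ht⟩ := exists_perturb a b ha
  have hsub : ∀ i, a i + t • b i ∈ LinearMap.range (L (x + t • z)) := by
    intro i
    refine Fin.cases ?_ (fun j => ?_) i
    · refine ⟨t⁻¹ • k, ?_⟩
      simp [a, b, hk, ht0]
    · refine ⟨v j, ?_⟩
      simp [a, b]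
  have hli2 : LinearIndependent F
      (fun i => (⟨a i + t • b i, hsub i⟩ : LinearMap.range (L (x + t • z)))) := by
    apply LinearIndependent.of_comp (LinearMap.range (L (x + t • z))).subtype
    exact ht
  have hcard := hli2.fintype_card_le_finrank
  rw [Fintype.card_fin] at hcard
  have := hx (x + t • z)
  omega

/-- Existence of an element of maximal rank. -/
theorem exists_maxRank [FiniteDimensional F V] [FiniteDimensional F W]
    (L : R →ₗ[F] (V →ₗ[F] W)) :
    ∃ x : R, ∀ y : R, finrank F (LinearMap.range (L y)) ≤ finrank F (LinearMap.range (L x)) := by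
  have hb : BddAbove (Set.range fun y : R => finrank F (LinearMap.range (L y))) := by
    refine ⟨finrank F W, ?_⟩
    rintro _ ⟨y, rfl⟩
    exact Submodule.finrank_le _
  obtain ⟨x, hx⟩ := Nat.sSup_mem (Set.range_nonempty _) hb
  refine ⟨x, fun y => ?_⟩
  have hx' : finrank F (LinearMap.range (L x)) =
    sSup (Set.range fun y : R => finrank F (LinearMap.range (L y))) := hx
  rw [hx']
  exact le_csSup hb ⟨y, rfl⟩

end Helper41.Eggert
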