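import Mathlib
import Pool.Agent.Helper41.Eggert.Zero
import Pool.Agent.Helper41.Eggert.Generic

set_option autoImplicit false

namespace Helper41.Eggert

open Module

section LinAlg

variable {F V W : Type*} [Field F] [AddCommGroup V] [Module F V] [AddCommGroup W] [Module F W]
  [FiniteDimensional F V]

/-- rank-nullity on a submodule -/
lemma finrank_map_add_ker (f : V →ₗ[F] W) (S : Submodule F V) :
    finrank F (S.map f) + finrank F (S ⊓ LinearMap.ker f : Submodule F V) = finrank F S := by
  have h := LinearMap.finrank_range_add_finrank_ker (f.domRestrict S)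
  have h1 : LinearMap.range (f.domRestrict S) = S.map f := by
    ext y; simp
  have h2 : finrank F (LinearMap.ker (f.domRestrict S)) =
      finrank F (S ⊓ LinearMap.ker f : Submodule F V) := by
    have h3 : (LinearMap.ker (f.domRestrict S)).map S.subtype = S ⊓ LinearMap.ker f := by
      ext y
      simp only [Submodule.mem_map, LinearMap.mem_ker, LinearMap.domRestrict_apply,
        Submodule.coe_subtype, Submodule.mem_inf]
      constructor
      · rintro ⟨⟨y, hy⟩, h, rfl⟩
        exact ⟨hy, h⟩
      · rintro ⟨hy, h⟩
        exact ⟨⟨y, hy⟩, h, rfl⟩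
    rw [← h3]
    exact LinearEquiv.finrank_eq (S.equivSubtypeMap (LinearMap.ker (f.domRestrict S)))
  rw [h1, h2] at h
  exact h

lemma finrank_map_mono_sub (f : V →ₗ[F] W) {S T : Submodule F V} (h : S ≤ T) :
    finrank F (T.map f) + finrank F S ≤ finrank F (S.map f) + finrank F T := by
  have h1 := finrank_map_add_ker f S
  have h2 := finrank_map_add_ker f T
  have h3 : finrank F (S ⊓ LinearMap.ker f : Submodule F V) ≤
      finrank F (T ⊓ LinearMap.ker f : Submodule F V) :=
    Submodule.finrank_mono (inf_le_inf_right _ h)
  omega

lemma finrank_map_mkQ {S T : Submodule F V} (h : S ≤ T) :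
    finrank F (T.map S.mkQ) + finrank F S = finrank F T := by
  have := finrank_map_add_ker S.mkQ T
  rwa [Submodule.ker_mkQ, inf_eq_right.2 h] at this

lemma finrank_map_mkQ_ge (S T : Submodule F V) :
    finrank F T ≤ finrank F (T.map S.mkQ) + finrank F S := by
  have := finrank_map_add_ker S.mkQ T
  rw [Submodule.ker_mkQ] at this
  have h2 : finrank F (T ⊓ S : Submodule F V) ≤ finrank F S := Submodule.finrank_mono inf_le_right
  omega

end LinAlg

end Helper41.Eggert
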