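import Mathlib
import Pool.Agent.Helper41.Eggert.Dim

set_option autoImplicit false

namespace Helper41.Eggert

open Module MvPolynomial

section Generic

variable {F A : Type*} [Field F] [CommRing A] [Algebra F A] [FiniteDimensional F A]

/-- An element of `m` in general position with respect to finitely many pairs of subspaces. -/
theorem exists_generic [Infinite F] {ι : Type*} [Fintype ι] [DecidableEq ι]
    (m : Submodule F A) (I J : ι → Submodule F A) :
    ∃ x ∈ m, ∀ i, ∀ z ∈ m, ∀ b ∈ I i, x * b ∈ J i → ∃ b' ∈ I i, z * b - x * b' ∈ J i := by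
  let L : m →ₗ[F] ((∀ i, I i) →ₗ[F] (∀ i, A ⧸ J i)) :=
    LinearMap.mk₂ F (fun z v i => (J i).mkQ ((z : A) * (v i : A)))
      (by intro a b v; ext i; simp [add_mul])
      (by intro c a v; ext i; simp)
      (by intro a v w; ext i; simp [mul_add])
      (by intro c a v; ext i; simp)
  have hL : ∀ (z : m) (v : ∀ i, I i) (i : ι), L z v i = (J i).mkQ ((z : A) * (v i : A)) :=
    fun _ _ _ => rfl
  obtain ⟨x, hx⟩ := exists_maxRank L
  refine ⟨x, x.2, fun i z hz b hb hxb => ?_⟩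
  have hk : L x (Pi.single i ⟨b, hb⟩) = 0 := by
    ext j
    rw [hL]
    by_cases hij : j = i
    · subst hij
      simpa using hxb
    · simp [Pi.single_eq_of_ne hij]
  obtain ⟨v, hv⟩ := mem_range_of_maxRank L x hx ⟨z, hz⟩ _ hk
  have := congrFun hv i
  rw [hL, hL] at this
  simp only [Pi.single_eq_same] at this
  refine ⟨v i, (v i).2, ?_⟩
  rw [← Submodule.ker_mkQ (J i), LinearMap.mem_ker, map_sub, this, sub_self]

/-- The polynomial expressing `ℓ (u ^ j)` in the coordinates of `u`. -/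
noncomputable def powPoly {N : ℕ} (u : Fin N → A) : ℕ → (A →ₗ[F] F) → MvPolynomial (Fin N) F
  | 0, ℓ => C (ℓ 1)
  | j + 1, ℓ => ∑ i, X i * powPoly u j (ℓ ∘ₗ LinearMap.mulLeft F (u i))

omit [FiniteDimensional F A] in
lemma eval_powPoly {N : ℕ} (u : Fin N → A) (c : Fin N → F) (j : ℕ) (ℓ : A →ₗ[F] F) :
    eval c (powPoly u j ℓ) = ℓ ((∑ i, c i • u i) ^ j) := by
  induction j generalizing ℓ with
  | zero => simp [powPoly]
  | succ j ih =>
    rw [powPoly, map_sum, pow_succ', Finset.sum_mul, map_sum]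
    refine Finset.sum_congr rfl fun i _ => ?_
    rw [map_mul, eval_X, ih, LinearMap.comp_apply, LinearMap.mulLeft_apply, smul_mul_assoc, map_smul,
      smul_eq_mul]

end Generic

/-- indexed version of the zero lemma -/
theorem exists_common_zero {K : Type*} [Field K] [IsAlgClosed K] {N : ℕ} {ι : Type*} [Fintype ι]
    (f : ι → MvPolynomial (Fin N) K) (hs : Fintype.card ι < N)
    (h0 : ∀ i, eval (0 : Fin N → K) (f i) = 0) :
    ∃ c : Fin N → K, c ≠ 0 ∧ ∀ i, eval c (f i) = 0 := by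
  classical
  obtain ⟨c, hc, h⟩ := exists_ne_zero_common_zero (Finset.univ.image f)
    (lt_of_le_of_lt Finset.card_image_le (by simpa using hs)) (by
      intro g hg
      obtain ⟨i, _, rfl⟩ := Finset.mem_image.1 hg
      exact h0 i)
  exact ⟨c, hc, fun i => h _ (Finset.mem_image_of_mem _ (Finset.mem_univ i))⟩

section Main

variable {F A : Type*} [Field F] [CommRing A] [Algebra F A] [FiniteDimensional F A]

/-- rank of multiplication by `x` as a map `I → A ⧸ J`. -/
noncomputable def rk (x : A) (I J : Submodule F A) : ℕ :=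
  finrank F ((I.map (LinearMap.mulLeft F x)).map J.mkQ)

omit [FiniteDimensional F A] in
/-- Finitely many functionals detecting a subspace of a quotient. -/
lemma exists_functionals {B : Type*} [AddCommGroup B] [Module F B] [FiniteDimensional F B]
    (X : Submodule F B) :
    ∃ Λ : B →ₗ[F] (Fin (finrank F X) → F), ∀ y ∈ X, Λ y = 0 → y = 0 := by
  let e := (finBasis F X).equivFun
  obtain ⟨Λ, hΛ⟩ := LinearMap.exists_extend (e : X →ₗ[F] (Fin (finrank F X) → F))
  refine ⟨Λ, fun y hy h => ?_⟩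
  have h1 : Λ y = e ⟨y, hy⟩ := by
    have := LinearMap.congr_fun hΛ ⟨y, hy⟩
    simpa using this
  rw [h1] at h
  have h2 : (⟨y, hy⟩ : X) = 0 := e.map_eq_zero_iff.1 h
  simpa using congrArg Subtype.val h2

/-- A family of representatives of a basis modulo `I`. -/
lemma exists_lift_basis (m I : Submodule F A) :
    ∃ u : Fin (finrank F (m.map I.mkQ)) → A, (∀ i, u i ∈ m) ∧
      ∀ c : Fin (finrank F (m.map I.mkQ)) → F, (∑ i, c i • u i) ∈ I → c = 0 := by
  let B := finBasis F (m.map I.mkQ)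
  have hB : ∀ i, ∃ u ∈ m, I.mkQ u = (B i : A ⧸ I) := fun i => by
    obtain ⟨u, hu, h⟩ := (B i).2
    exact ⟨u, hu, h⟩
  choose u hu hB using hB
  refine ⟨u, hu, fun c hc => ?_⟩
  have h1 : I.mkQ (∑ i, c i • u i) = 0 := by
    rw [← LinearMap.mem_ker, Submodule.ker_mkQ]; exact hc
  rw [map_sum] at h1
  have h2 : (∑ i, c i • B i) = 0 := by
    apply Subtype.ext
    rw [Submodule.coe_sum]
    simp only [map_smul, hB] at h1
    simpa using h1
  have h3 := Fintype.linearIndependent_iff.1 B.linearIndependent c h2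
  exact funext h3

/-- The key existence lemma. -/
theorem lemmaZ [IsAlgClosed F] (m I J : Submodule F A) (hIm : I ≤ m)
    (x : A)
    (G1 : ∀ z ∈ m, ∀ b ∈ m, x * b ∈ I → ∃ b' ∈ m, z * b - x * b' ∈ I)
    (G2 : ∀ z ∈ m, ∀ b ∈ I, x * b ∈ J → ∃ b' ∈ I, z * b - x * b' ∈ J)
    (H : ∀ u ∈ m, u ^ 3 ∈ J → u ∈ I) :
    finrank F m ≤ finrank F I + 2 * rk x m I + 2 * rk x I J := by
  classical
  by_contra hcon
  push Not at hcon
  have hN := finrank_map_mkQ hIm
  obtain ⟨u, hu, hind⟩ := exists_lift_basis m I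
  obtain ⟨Λ1, hΛ1⟩ := exists_functionals ((m.map (LinearMap.mulLeft F x)).map I.mkQ)
  obtain ⟨Λ0, hΛ0⟩ := exists_functionals ((I.map (LinearMap.mulLeft F x)).map J.mkQ)
  let f : (Fin (rk x m I) ⊕ Fin (rk x m I)) ⊕ (Fin (rk x I J) ⊕ Fin (rk x I J)) →
      MvPolynomial (Fin (finrank F (m.map I.mkQ))) F :=
    Sum.elim
      (Sum.elim
        (fun j => powPoly u 1 (LinearMap.proj j ∘ₗ Λ1 ∘ₗ I.mkQ ∘ₗ LinearMap.mulLeft F x))
        (fun j => powPoly u 2 (LinearMap.proj j ∘ₗ Λ1 ∘ₗ I.mkQ)))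
      (Sum.elim
        (fun j => powPoly u 2 (LinearMap.proj j ∘ₗ Λ0 ∘ₗ J.mkQ ∘ₗ LinearMap.mulLeft F x))
        (fun j => powPoly u 3 (LinearMap.proj j ∘ₗ Λ0 ∘ₗ J.mkQ)))
  obtain ⟨c, hc0, hc⟩ := exists_common_zero f (by
      simp only [Fintype.card_sum, Fintype.card_fin]
      omega) (by
      rintro ((j | j) | (j | j)) <;>
        simp only [f, Sum.elim_inl, Sum.elim_inr, eval_powPoly, Pi.zero_apply, zero_smul,
          Finset.sum_const_zero] <;> simp)
  apply hc0
  apply hind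
  set U := ∑ i, c i • u i with hU
  have hUm : U ∈ m := Submodule.sum_mem _ fun i _ => Submodule.smul_mem _ _ (hu i)
  have e1 : Λ1 (I.mkQ (x * U)) = 0 := by
    ext j
    have := hc (Sum.inl (Sum.inl j))
    simp only [f, Sum.elim_inl, eval_powPoly, pow_one] at this
    exact this
  have e2 : Λ1 (I.mkQ (U ^ 2)) = 0 := by
    ext j
    have := hc (Sum.inl (Sum.inr j))
    simp only [f, Sum.elim_inl, Sum.elim_inr, eval_powPoly] at this
    exact this
  have e3 : Λ0 (J.mkQ (x * U ^ 2)) = 0 := by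
    ext j
    have := hc (Sum.inr (Sum.inl j))
    simp only [f, Sum.elim_inl, Sum.elim_inr, eval_powPoly] at this
    exact this
  have e4 : Λ0 (J.mkQ (U ^ 3)) = 0 := by
    ext j
    have := hc (Sum.inr (Sum.inr j))
    simp only [f, Sum.elim_inr, eval_powPoly] at this
    exact this
  have mem1 : ∀ b' ∈ m, I.mkQ (x * b') ∈ (m.map (LinearMap.mulLeft F x)).map I.mkQ :=
    fun b' hb' => Submodule.mem_map_of_mem (Submodule.mem_map_of_mem (f := LinearMap.mulLeft F x) hb')
  have mem0 : ∀ b' ∈ I, J.mkQ (x * b') ∈ (I.map (LinearMap.mulLeft F x)).map J.mkQ :=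
    fun b' hb' => Submodule.mem_map_of_mem (Submodule.mem_map_of_mem (f := LinearMap.mulLeft F x) hb')
  have k1 : x * U ∈ I := by
    rw [← Submodule.ker_mkQ I, LinearMap.mem_ker]
    exact hΛ1 _ (mem1 U hUm) e1
  have k2 : U ^ 2 ∈ I := by
    obtain ⟨b', hb', h⟩ := G1 U hUm U hUm k1
    rw [← Submodule.ker_mkQ I, LinearMap.mem_ker] at h ⊢
    rw [map_sub, sub_eq_zero, ← sq] at h
    refine hΛ1 _ ?_ e2
    rw [h]
    exact mem1 b' hb'
  have k3 : x * U ^ 2 ∈ J := by
    rw [← Submodule.ker_mkQ J, LinearMap.mem_ker]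
    exact hΛ0 _ (mem0 _ k2) e3
  have k4 : U ^ 3 ∈ J := by
    obtain ⟨b', hb', h⟩ := G2 U hUm _ k2 k3
    rw [← Submodule.ker_mkQ J, LinearMap.mem_ker] at h ⊢
    rw [map_sub, sub_eq_zero, ← pow_succ'] at h
    refine hΛ0 _ ?_ e4
    rw [h]
    exact mem0 b' hb'
  exact H U hUm k4

end Main

end Helper41.Eggert
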