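import Mathlib
import Pool.Agent.Helper41.Eggert.Alg

set_option autoImplicit false

namespace Helper41.Eggert

open Module

section

variable {F A : Type*} [Field F] [CommRing A] [Algebra F A] [FiniteDimensional F A]
variable (p : ℕ) [Fact p.Prime] [CharP A p]

/-- elements of `m` killed by the `e`-th power of the Frobenius map -/
def kerPow (m : Submodule F A) (e : ℕ) : Submodule F A where
  carrier := {b | b ∈ m ∧ b ^ (p ^ e) = 0}
  add_mem' := by
    rintro a b ⟨ha, ha'⟩ ⟨hb, hb'⟩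
    exact ⟨m.add_mem ha hb, by rw [add_pow_char_pow, ha', hb', add_zero]⟩
  zero_mem' := ⟨m.zero_mem, zero_pow (pow_ne_zero _ (Fact.out : p.Prime).ne_zero)⟩
  smul_mem' := by
    rintro c a ⟨ha, ha'⟩
    exact ⟨m.smul_mem c ha, by rw [smul_pow, ha', smul_zero]⟩

omit [FiniteDimensional F A] in
lemma mem_kerPow {m : Submodule F A} {e : ℕ} {b : A} :
    b ∈ kerPow p m e ↔ b ∈ m ∧ b ^ (p ^ e) = 0 := Iff.rfl

/-- dimension count with the Frobenius map -/
lemma finrank_frob [IsAlgClosed F] (m : Submodule F A) (e : ℕ) (W Y : Submodule F A)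
    (hW : W ≤ m) (h : ∀ w ∈ W, w ^ (p ^ e) ∈ Y) :
    finrank F (W.map (kerPow p m e).mkQ) ≤ finrank F Y := by
  obtain ⟨u, hu, hind⟩ := exists_lift_basis W (kerPow p m e)
  have hq : 0 < p ^ e := pow_pos (Fact.out : p.Prime).pos e
  have hli : LinearIndependent F (fun i => (⟨u i ^ (p ^ e), h _ (hu i)⟩ : Y)) := by
    rw [Fintype.linearIndependent_iff]
    intro g hg
    have hg' : ∑ i, g i • u i ^ (p ^ e) = 0 := by
      have := congrArg Subtype.val hg
      simpa using this
    choose c hc using fun i => IsAlgClosed.exists_pow_nat_eq (g i) hq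
    have h1 : (∑ i, c i • u i) ∈ kerPow p m e := by
      refine ⟨Submodule.sum_mem _ fun i _ => Submodule.smul_mem _ _ (hW (hu i)), ?_⟩
      rw [sum_pow_char_pow, ← hg']
      refine Finset.sum_congr rfl fun i _ => ?_
      rw [smul_pow, hc]
    have h2 := hind c h1
    intro i
    rw [← hc i, h2, Pi.zero_apply, zero_pow hq.ne']
  simpa using hli.fintype_card_le_finrank

variable {p}

/-- powers of `x` acting on a subspace -/
noncomputable def dm (x : A) (W : Submodule F A) (j : ℕ) : ℕ :=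
  finrank F (W.map (LinearMap.mulLeft F (x ^ j)))

omit [FiniteDimensional F A] in
lemma map_succ (x : A) (W : Submodule F A) (j : ℕ) :
    (W.map (LinearMap.mulLeft F (x ^ j))).map (LinearMap.mulLeft F x) =
      W.map (LinearMap.mulLeft F (x ^ (j + 1))) := by
  ext y
  simp only [Submodule.mem_map, LinearMap.mulLeft_apply, exists_exists_and_eq_and]
  constructor
  · rintro ⟨b, hb, rfl⟩
    exact ⟨b, hb, by ring⟩
  · rintro ⟨b, hb, rfl⟩
    exact ⟨b, hb, by ring⟩

lemma dm_succ (x : A) (W : Submodule F A) (j : ℕ) :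
    dm x W (j + 1) + finrank F (W.map (LinearMap.mulLeft F (x ^ j)) ⊓
      LinearMap.ker (LinearMap.mulLeft F x) : Submodule F A) = dm x W j := by
  have := finrank_map_add_ker (LinearMap.mulLeft F x) (W.map (LinearMap.mulLeft F (x ^ j)))
  rwa [map_succ] at this

omit [FiniteDimensional F A] in
lemma dm_zero (x : A) (W : Submodule F A) : dm x W 0 = finrank F W := by
  unfold dm
  have : W.map (LinearMap.mulLeft F (x ^ 0)) = W := by
    ext y
    simp
  rw [this]

/-- decreasing second differences -/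
lemma dm_convex (x : A) (W : Submodule F A) (hW : ∀ a : A, ∀ b ∈ W, a * b ∈ W) (j : ℕ) :
    dm x W (j + 1) + dm x W (j + 1) ≤ dm x W j + dm x W (j + 2) := by
  have h1 := dm_succ x W j
  have h2 := dm_succ x W (j + 1)
  have h3 : finrank F (W.map (LinearMap.mulLeft F (x ^ (j + 1))) ⊓
      LinearMap.ker (LinearMap.mulLeft F x) : Submodule F A) ≤
      finrank F (W.map (LinearMap.mulLeft F (x ^ j)) ⊓
      LinearMap.ker (LinearMap.mulLeft F x) : Submodule F A) := by
    apply Submodule.finrank_mono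
    apply inf_le_inf_right
    rintro _ ⟨b, hb, rfl⟩
    refine ⟨x * b, hW _ _ hb, ?_⟩
    simp only [LinearMap.mulLeft_apply]
    ring
  have h4 : j + 1 + 1 = j + 2 := rfl
  rw [h4] at h2
  omega

lemma dm_anti (x : A) (W : Submodule F A) {i j : ℕ} (hij : i ≤ j) : dm x W j ≤ dm x W i := by
  induction hij with
  | refl => exact le_rfl
  | step _ ih => exact (Nat.le.intro (dm_succ x W _)).trans ih

/-- block comparison -/
lemma dm_block (hp3 : 3 ≤ p) (x : A) (m : Submodule F A) (hm : ∀ a : A, ∀ b ∈ m, a * b ∈ m)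
    (v c : ℕ) (hc : v + 1 ≤ 2 * c) :
    dm x m (v + c) + dm x (kerPow p m 1) (v + 1) ≤
      dm x m (v + c + 1) + dm x (kerPow p m 1) v := by
  have h1 := dm_succ x m (v + c)
  have h2 := dm_succ x (kerPow p m 1) v
  have h3 : finrank F (m.map (LinearMap.mulLeft F (x ^ (v + c))) ⊓
      LinearMap.ker (LinearMap.mulLeft F x) : Submodule F A) ≤
      finrank F ((kerPow p m 1).map (LinearMap.mulLeft F (x ^ v)) ⊓
      LinearMap.ker (LinearMap.mulLeft F x) : Submodule F A) := by
    apply Submodule.finrank_mono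
    rintro _ ⟨⟨b, hb, rfl⟩, hker⟩
    refine ⟨?_, hker⟩
    rw [SetLike.mem_coe, LinearMap.mem_ker, LinearMap.mulLeft_apply,
      LinearMap.mulLeft_apply] at hker
    refine ⟨x ^ c * b, ⟨hm _ _ hb, ?_⟩, ?_⟩
    · rw [pow_one, mul_pow, ← pow_mul]
      have e1 : c * p = (c * p - (v + c + 1)) + (v + c + 1) := by
        have : c * 3 ≤ c * p := Nat.mul_le_mul_left c hp3
        omega
      have e2 : p = (p - 1) + 1 := by omega
      have e3 : b ^ p = b ^ (p - 1) * b := by
        conv_lhs => rw [e2, pow_succ]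
      rw [e1, pow_add, e3]
      calc x ^ (c * p - (v + c + 1)) * x ^ (v + c + 1) * (b ^ (p - 1) * b)
          = x ^ (c * p - (v + c + 1)) * b ^ (p - 1) * (x * (x ^ (v + c) * b)) := by ring
        _ = 0 := by rw [hker, mul_zero]
    · simp only [LinearMap.mulLeft_apply]
      ring
  omega

end

section

variable {F A : Type*} [Field F] [CommRing A] [Algebra F A] [FiniteDimensional F A]

/-- The main inequality over an algebraically closed field. -/
theorem main_ineq (p : ℕ) [Fact p.Prime] [CharP A p] [IsAlgClosed F] (hp : p ≠ 2)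
    (m : Submodule F A) (hm : ∀ a : A, ∀ b ∈ m, a * b ∈ m) (hnil : ∀ b ∈ m, IsNilpotent b) :
    51 * finrank F m ≤ 101 * finrank F (kerPow p m 1) := by
  classical
  have hp3 : 3 ≤ p := by
    have := (Fact.out : p.Prime).two_le
    omega
  set K := kerPow p m 1 with hK
  set K2 := kerPow p m 2 with hK2
  have hKm : K ≤ m := fun b hb => hb.1
  have hK2m : K2 ≤ m := fun b hb => hb.1
  have hKK2 : K ≤ K2 := fun b hb => ⟨hb.1, by
    have : p ^ 2 = p ^ 1 * p := by ring
    rw [this, pow_mul, hb.2, zero_pow (by omega)]⟩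
  have hKid : ∀ a : A, ∀ b ∈ K, a * b ∈ K := fun a b hb => ⟨hm _ _ hb.1, by
    rw [mul_pow, hb.2, mul_zero]⟩
  have hK2id : ∀ a : A, ∀ b ∈ K2, a * b ∈ K2 := fun a b hb => ⟨hm _ _ hb.1, by
    rw [mul_pow, hb.2, mul_zero]⟩
  -- generic element
  obtain ⟨x, hxm, hx⟩ := exists_generic m
    (![m, K, m, K2, m] : Fin 5 → Submodule F A) (![⊥, ⊥, K, K, K2] : Fin 5 → Submodule F A)
  have g0 : ∀ z ∈ m, ∀ b ∈ m, x * b ∈ (⊥ : Submodule F A) →
      ∃ b' ∈ m, z * b - x * b' ∈ (⊥ : Submodule F A) := by simpa using hx 0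
  have g1 : ∀ z ∈ m, ∀ b ∈ K, x * b ∈ (⊥ : Submodule F A) →
      ∃ b' ∈ K, z * b - x * b' ∈ (⊥ : Submodule F A) := by simpa using hx 1
  have g2 : ∀ z ∈ m, ∀ b ∈ m, x * b ∈ K → ∃ b' ∈ m, z * b - x * b' ∈ K := by simpa using hx 2
  have g3 : ∀ z ∈ m, ∀ b ∈ K2, x * b ∈ K → ∃ b' ∈ K2, z * b - x * b' ∈ K := by simpa using hx 3
  have g4 : ∀ z ∈ m, ∀ b ∈ m, x * b ∈ K2 → ∃ b' ∈ m, z * b - x * b' ∈ K2 := by simpa using hx 4
  -- the annihilator of x is contained in K
  have hcube : ∀ u : A, u ^ 3 = 0 → u ^ p ^ 1 = 0 := fun u hu => by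
    have : p ^ 1 = 3 + (p - 3) := by rw [pow_one]; omega
    rw [this, pow_add, hu, zero_mul]
  have hann : ∀ b ∈ m, x * b = 0 → b ∈ K := by
    intro b hb hxb
    refine ⟨hb, hcube b ?_⟩
    obtain ⟨b', -, h⟩ := g0 b hb b hb (by simpa using hxb)
    rw [Submodule.mem_bot, sub_eq_zero] at h
    calc b ^ 3 = b * (b * b) := by ring
      _ = b' * (x * b) := by rw [h]; ring
      _ = 0 := by rw [hxb, mul_zero]
  -- notation
  have d0 : dm x m 0 = finrank F m := dm_zero x m
  have e0 : dm x K 0 = finrank F K := dm_zero x K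
  -- alpha_0 = beta_0
  have ha0 : dm x m 0 + dm x K 1 ≤ dm x m 1 + dm x K 0 := by
    have h1 := dm_succ x m 0
    have h2 := dm_succ x K 0
    have h3 : finrank F (m.map (LinearMap.mulLeft F (x ^ 0)) ⊓
        LinearMap.ker (LinearMap.mulLeft F x) : Submodule F A) ≤
        finrank F (K.map (LinearMap.mulLeft F (x ^ 0)) ⊓
        LinearMap.ker (LinearMap.mulLeft F x) : Submodule F A) := by
      apply Submodule.finrank_mono
      rintro _ ⟨⟨b, hb, rfl⟩, hker⟩
      refine ⟨⟨b, ?_, rfl⟩, hker⟩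
      rw [SetLike.mem_coe, LinearMap.mem_ker] at hker
      exact hann b hb (by simpa using hker)
    rw [Nat.zero_add] at h1 h2
    omega
  have ha1 := dm_block hp3 x m hm 0 1 (by omega)
  have ha2 := dm_block hp3 x m hm 1 1 (by omega)
  have ha3 := dm_block hp3 x m hm 1 2 (by omega)
  simp only [Nat.zero_add, Nat.reduceAdd] at ha1 ha2 ha3
  rw [← hK] at ha1 ha2 ha3
  -- telescoping
  obtain ⟨N, hN⟩ := hnil x hxm
  have hvan : ∀ j, N ≤ j → dm x m j = 0 := by
    intro j hj
    have : x ^ j = 0 := pow_eq_zero_of_le hj hN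
    unfold dm
    rw [this]
    have : (m.map (LinearMap.mulLeft F (0 : A))) = ⊥ := by
      rw [eq_bot_iff]
      rintro _ ⟨b, _, rfl⟩
      simp
    rw [this, finrank_bot]
  have htel : ∀ n j, N ≤ j + n → 2 * dm x m (3 * j + 1) ≤ 3 * dm x K (2 * j) := by
    intro n
    induction n with
    | zero =>
      intro j hj
      rw [hvan _ (by omega)]
      omega
    | succ n ih =>
      intro j hj
      have h0 := ih (j + 1) (by omega)
      have h1 := dm_block hp3 x m hm (2 * j) (j + 1) (by omega)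
      have h2 := dm_block hp3 x m hm (2 * j + 1) (j + 1) (by omega)
      have h3 := dm_block hp3 x m hm (2 * j + 1) (j + 2) (by omega)
      have h4 := dm_convex x K hKid (2 * j)
      rw [← hK] at h1 h2 h3
      have i1 : 2 * j + (j + 1) = 3 * j + 1 := by ring
      have i2 : 2 * j + 1 + (j + 1) = 3 * j + 2 := by ring
      have i3 : 2 * j + 1 + (j + 2) = 3 * j + 3 := by ring
      have i4 : 3 * (j + 1) + 1 = 3 * j + 4 := by ring
      have i5 : 2 * (j + 1) = 2 * j + 2 := by ring
      have i6 : 2 * j + 1 + 1 = 2 * j + 2 := by ring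
      have i7 : 3 * j + 1 + 1 = 3 * j + 2 := by ring
      have i8 : 3 * j + 2 + 1 = 3 * j + 3 := by ring
      have i9 : 3 * j + 3 + 1 = 3 * j + 4 := by ring
      rw [i1, i7] at h1
      rw [i2, i6, i8] at h2
      rw [i3, i6, i9] at h3
      rw [i4, i5] at h0
      omega
  have hd4 := htel N 1 (by omega)
  simp only [Nat.mul_one, Nat.reduceAdd] at hd4
  -- ranks on the quotients
  have r1 : rk x K2 K ≤ dm x K 2 := by
    refine (finrank_frob p m 1 (K2.map (LinearMap.mulLeft F x))
      (K.map (LinearMap.mulLeft F (x ^ 2))) ?_ ?_)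
    · rintro _ ⟨b, hb, rfl⟩
      exact hm _ _ (hK2m hb)
    · rintro _ ⟨b, hb, rfl⟩
      refine ⟨x ^ (p - 2) * b ^ p, hKid _ _ ⟨?_, ?_⟩, ?_⟩
      · have : b ^ p = b ^ (p - 1) * b := by
          conv_lhs => rw [show p = (p - 1) + 1 by omega, pow_succ]
        rw [this]
        exact hm _ _ (hK2m hb)
      · rw [← pow_mul]
        have := hb.2
        rwa [show p * p ^ 1 = p ^ 2 by ring]
      · simp only [LinearMap.mulLeft_apply]
        rw [pow_one, mul_pow, ← mul_assoc, ← pow_add]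
        congr 2
        omega
  have r2 : rk x m K2 ≤ dm x m 4 := by
    refine (finrank_frob p m 2 (m.map (LinearMap.mulLeft F x))
      (m.map (LinearMap.mulLeft F (x ^ 4))) ?_ ?_)
    · rintro _ ⟨b, hb, rfl⟩
      exact hm _ _ hb
    · rintro _ ⟨b, hb, rfl⟩
      have hp2 : 9 ≤ p ^ 2 := by nlinarith
      refine ⟨x ^ (p ^ 2 - 4) * b ^ p ^ 2, hm _ _ ?_, ?_⟩
      · have : b ^ p ^ 2 = b ^ (p ^ 2 - 1) * b := by
          conv_lhs => rw [show p ^ 2 = (p ^ 2 - 1) + 1 by omega, pow_succ]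
        rw [this]
        exact hm _ _ hb
      · simp only [LinearMap.mulLeft_apply]
        rw [mul_pow, ← mul_assoc, ← pow_add]
        congr 2
        omega
  have r3 : rk x K ⊥ = dm x K 1 := by
    unfold rk dm
    rw [pow_one]
    have := finrank_map_mkQ (bot_le : (⊥ : Submodule F A) ≤ K.map (LinearMap.mulLeft F x))
    rwa [finrank_bot, add_zero] at this
  have r4 : rk x m K + finrank F K2 ≤ rk x K2 K + finrank F m := by
    have := finrank_map_mono_sub (K.mkQ ∘ₗ LinearMap.mulLeft F x) hK2m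
    rwa [Submodule.map_comp, Submodule.map_comp] at this
  have r5 : dm x m 1 ≤ rk x m K + finrank F K := by
    have := finrank_map_mkQ_ge K (m.map (LinearMap.mulLeft F x))
    unfold dm rk
    rwa [pow_one]
  -- zero lemma, twice
  have z1 : finrank F m ≤ finrank F K + 2 * rk x m K + 2 * rk x K ⊥ := by
    refine lemmaZ m K ⊥ hKm x g2 g1 ?_
    intro u hu h
    exact ⟨hu, hcube u (by simpa using h)⟩
  have z2 : finrank F m ≤ finrank F K2 + 2 * rk x m K2 + 2 * rk x K2 K := by
    refine lemmaZ m K2 K hK2m x g4 g3 ?_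
    intro u hu h
    refine ⟨hu, ?_⟩
    have h2 := h.2
    rw [← pow_mul] at h2
    have : p ^ 2 = 3 * p ^ 1 + (p ^ 2 - 3 * p ^ 1) := by
      have : 3 * p ^ 1 ≤ p ^ 2 := by nlinarith
      omega
    rw [this, pow_add, h2, zero_mul]
  have c1 := dm_anti x K (show 1 ≤ 2 by norm_num)
  have c0 := dm_anti x K (show 0 ≤ 1 by norm_num)
  omega

end

end Helper41.Eggert
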