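import Mathlib
import Pool.Agent.Helper41.Eggert.Main

set_option autoImplicit false

/-!
Descent from an algebraically closed field: for every commutative nilpotent finite-dimensional
algebra over a field of odd characteristic `p`,
`101 * dim R^(1) ≤ 50 * dim R`.
-/

namespace Helper41.Eggert

open Module TensorProduct

section

variable {F R : Type*} [Field F] [NonUnitalCommRing R] [Module F R] [IsScalarTower F R R]
  [SMulCommClass F R R]

/-- `a ^ (k+1)` in a non-unital ring -/
def npw (k : ℕ) (a : R) : R := (List.replicate k a).foldr (· * ·) a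

omit [Module F R] [IsScalarTower F R R] [SMulCommClass F R R] [Field F] in
lemma npw_succ (k : ℕ) (a : R) : npw (k + 1) a = a * npw k a := by
  simp [npw, List.replicate_succ]

lemma inr_npw (k : ℕ) (a : R) :
    ((npw k a : R) : Unitization F R) = (a : Unitization F R) ^ (k + 1) := by
  induction k with
  | zero => simp [npw]
  | succ k ih => rw [npw_succ, Unitization.inr_mul, ih, ← pow_succ']

/-- the augmentation of the base-changed unitization -/
noncomputable def aug (F E R : Type*) [Field F] [Field E] [Algebra F E]
    [NonUnitalCommRing R] [Module F R] [IsScalarTower F R R] [SMulCommClass F R R] :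
    (E ⊗[F] Unitization F R) →ₐ[E] E :=
  Algebra.TensorProduct.lift (AlgHom.id E E) ((Algebra.ofId F E).comp (Unitization.fstHom F R))
    (fun _ _ => Commute.all _ _)

variable {E : Type*} [Field E] [Algebra F E]

lemma aug_tmul (c : E) (u : Unitization F R) :
    aug F E R (c ⊗ₜ u) = c * algebraMap F E u.fst := by
  simp [aug, Algebra.ofId_apply]

lemma mem_span_sub (a : E ⊗[F] Unitization F R) :
    a - aug F E R a • (1 : E ⊗[F] Unitization F R) ∈
      Submodule.span E (Set.range fun r : R => (1 : E) ⊗ₜ[F] (r : Unitization F R)) := by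
  induction a using TensorProduct.induction_on with
  | zero => simp
  | add a b ha hb =>
    have : a + b - aug F E R (a + b) • (1 : E ⊗[F] Unitization F R) =
        (a - aug F E R a • (1 : E ⊗[F] Unitization F R)) +
        (b - aug F E R b • (1 : E ⊗[F] Unitization F R)) := by
      rw [map_add, add_smul]; abel
    rw [this]
    exact Submodule.add_mem _ ha hb
  | tmul c u =>
    have h1 : c ⊗ₜ[F] u = aug F E R (c ⊗ₜ u) • (1 : E ⊗[F] Unitization F R) +
        c • ((1 : E) ⊗ₜ[F] (u.snd : Unitization F R)) := by
      rw [aug_tmul]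
      have hu : u = algebraMap F (Unitization F R) u.fst + (u.snd : Unitization F R) := by
        rw [Unitization.algebraMap_eq_inl]
        exact (Unitization.inl_fst_add_inr_snd_eq u).symm
      conv_lhs => rw [hu, TensorProduct.tmul_add]
      congr 1
      · rw [Algebra.algebraMap_eq_smul_one, ← TensorProduct.smul_tmul, Algebra.TensorProduct.one_def,
          TensorProduct.smul_tmul', smul_eq_mul, mul_one, Algebra.smul_def, mul_comm]
      · rw [TensorProduct.smul_tmul', smul_eq_mul, mul_one]
    rw [sub_eq_iff_eq_add'.2 h1]
    exact Submodule.smul_mem _ _ (Submodule.subset_span ⟨_, rfl⟩)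

lemma aug_surj : Function.Surjective (aug F E R) := fun c => ⟨c • 1, by simp⟩

instance finite_unitization [FiniteDimensional F R] : FiniteDimensional F (Unitization F R) :=
  Module.Finite.equiv (Unitization.linearEquiv F F R).symm

/-- the maximal ideal -/
noncomputable def augIdeal (F E R : Type*) [Field F] [Field E] [Algebra F E]
    [NonUnitalCommRing R] [Module F R] [IsScalarTower F R R] [SMulCommClass F R R] :
    Submodule E (E ⊗[F] Unitization F R) :=
  LinearMap.ker (aug F E R).toLinearMap

lemma mem_augIdeal {a : E ⊗[F] Unitization F R} : a ∈ augIdeal F E R ↔ aug F E R a = 0 := Iff.rfl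

lemma finrank_augIdeal [FiniteDimensional F R] :
    finrank E (augIdeal F E R) = finrank F R := by
  have h1 := LinearMap.finrank_range_add_finrank_ker (aug F E R).toLinearMap
  have h2 : LinearMap.range (aug F E R).toLinearMap = ⊤ :=
    LinearMap.range_eq_top.2 aug_surj
  have h3 : finrank E (E ⊗[F] Unitization F R) = finrank F (Unitization F R) :=
    Module.finrank_baseChange
  have h4 : finrank F (Unitization F R) = 1 + finrank F R := by
    rw [(Unitization.linearEquiv F F R).finrank_eq, Module.finrank_prod, finrank_self]
  rw [h2, finrank_top, finrank_self, h3, h4] at h1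
  have h5 : finrank E (LinearMap.ker (aug F E R).toLinearMap) = finrank E (augIdeal F E R) := rfl
  omega

lemma augIdeal_nil (hnil : ∃ n : ℕ, ∀ a : R, npw n a = 0) (b : E ⊗[F] Unitization F R)
    (hb : b ∈ augIdeal F E R) : IsNilpotent b := by
  obtain ⟨n, hn⟩ := hnil
  have h1 := mem_span_sub b
  rw [mem_augIdeal.1 hb, zero_smul, sub_zero] at h1
  clear hb
  induction h1 using Submodule.span_induction with
  | mem x hx =>
    obtain ⟨r, rfl⟩ := hx
    refine ⟨n + 1, ?_⟩
    change ((1 : E) ⊗ₜ[F] (r : Unitization F R)) ^ (n + 1) = 0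
    rw [Algebra.TensorProduct.tmul_pow, ← inr_npw, hn, Unitization.inr_zero,
      TensorProduct.tmul_zero]
  | zero => exact IsNilpotent.zero
  | add x y _ _ hx hy => exact (Commute.all x y).isNilpotent_add hx hy
  | smul c x _ hx => exact hx.smul c

/-- Weak Eggert inequality over an arbitrary field of odd characteristic. -/
theorem weak_eggert (p : ℕ) [Fact p.Prime] (hp : p ≠ 2) [CharP F p] [FiniteDimensional F R]
    (hnil : ∃ n : ℕ, ∀ a : R, npw n a = 0) :
    101 * finrank F (Submodule.span F (Set.range (npw (R := R) (p - 1)))) ≤ 50 * finrank F R := by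
  classical
  let E := AlgebraicClosure F
  let A := E ⊗[F] Unitization F R
  have : CharP E p := charP_of_injective_algebraMap (algebraMap F E).injective p
  have : CharP A p :=
    charP_of_injective_ringHom (f := algebraMap E A) (by
      intro a b hab
      have h1 : ∀ c : E, aug F E R (algebraMap E A c) = c := fun c => by
        rw [AlgHom.commutes]; rfl
      rw [← h1 a, ← h1 b, hab]) p
  let m : Submodule E A := augIdeal F E R
  have hm : ∀ a : A, ∀ b ∈ m, a * b ∈ m := by
    intro a b hb
    change aug F E R (a * b) = 0
    rw [map_mul, mem_augIdeal.1 hb, mul_zero]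
  have hmain := main_ineq (F := E) p hp m hm (augIdeal_nil hnil)
  have hfr : finrank E m = finrank F R := finrank_augIdeal
  have hKm : kerPow p m 1 ≤ m := fun b hb => hb.1
  have hQ := finrank_map_mkQ hKm
  -- basis of the span of the p-th powers
  obtain ⟨f, hf, -, hli⟩ := Submodule.exists_fun_fin_finrank_span_eq F
    (Set.range (npw (R := R) (p - 1)))
  choose b hb using hf
  have hp1 : p - 1 + 1 = p := by
    have := (Fact.out : p.Prime).pos
    omega
  have hpow : ∀ i, ((1 : E) ⊗ₜ[F] (b i : Unitization F R)) ^ p =
      (1 : E) ⊗ₜ[F] (f i : Unitization F R) := by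
    intro i
    rw [Algebra.TensorProduct.tmul_pow, one_pow, ← hb i, inr_npw, hp1]
  have hli2 : LinearIndependent F (fun i => (f i : Unitization F R)) :=
    hli.map' (Unitization.inrHom F F R) (LinearMap.ker_eq_bot.2 Unitization.inrHom_injective)
  have hli3 : LinearIndependent E (fun i => (1 : E) ⊗ₜ[F] (f i : Unitization F R)) :=
    Module.Flat.linearIndependent_one_tmul hli2
  have hbm : ∀ i, (1 : E) ⊗ₜ[F] (b i : Unitization F R) ∈ m := by
    intro i
    refine mem_augIdeal.2 ?_
    rw [aug_tmul]
    simp
  have hli4 : LinearIndependent E (fun i => (⟨(kerPow p m 1).mkQ ((1 : E) ⊗ₜ[F] (b i : Unitization F R)),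
      Submodule.mem_map_of_mem (hbm i)⟩ : m.map (kerPow p m 1).mkQ)) := by
    rw [Fintype.linearIndependent_iff]
    intro g hg
    have h1 : (kerPow p m 1).mkQ (∑ i, g i • ((1 : E) ⊗ₜ[F] (b i : Unitization F R))) = 0 := by
      have := congrArg Subtype.val hg
      simpa only [Submodule.coe_sum, Submodule.coe_smul, map_sum, map_smul, ZeroMemClass.coe_zero]
        using this
    rw [← LinearMap.mem_ker, Submodule.ker_mkQ] at h1
    have h2 := h1.2
    rw [pow_one, sum_pow_char] at h2
    simp only [smul_pow, hpow] at h2
    have h3 := Fintype.linearIndependent_iff.1 hli3 _ h2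
    intro i
    exact pow_eq_zero_iff (Fact.out : p.Prime).ne_zero |>.1 (h3 i)
  have hcard := hli4.fintype_card_le_finrank
  rw [Fintype.card_fin] at hcard
  omega

end

end Helper41.Eggert
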